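import Pool.Agent.Results.MP_dd1803_nt.RandomOrbits
import Pool.Agent.U569.APL.Pos

/-!
# MP_dd1803_nt: Zilber-Pink in split semiabelian varieties for rational maps with coefficients formed from arbitrary sets

Let `E_i : y² = x³ + A_i x + B_i` be arbitrary elliptic curves over the complex numbers, let
`𝔖 = E_1^(q_1) × … × E_n^(q_n) × G_m^k` (`Amb`), of dimension `N = q_1 + … + q_n + k`, and let `V ⊆ ℂ^m` be any irreducible
subvariety of any dimension. A vector `c` of `R` integers (`Coeffs`) gives the rational map `F_c : 𝔖 ⇢ ℂ^m` whose `m`
numerators and `m` denominators are the polynomials of multidegree `D` in the coordinates `x(P_{i,l})` and `u_w` with the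
coefficients `c`; here `D ≥ 1`, and `D ≥ q_i` for the coordinates which belong to `E_i`. The starting results `RandomMaps` and
`RandomOrbits` show that the pull-back `pullback c V` has no atypical intersections with special subvarieties for a
positive proportion of the vectors `c` in boxes and in random orbits of groups of matrices: for every `ρ` every irreducible
closed subset of its intersection with the union of the algebraic subgroups of codimension at least `ρ` has dimension at
most `N - (m - dim V) - ρ` (`NoAtypical`).

Here the coefficients are those of a sequence (`j = 0, 1, 2, …`) of families of vectors in `ℤ ^ R`. The vectors of the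
`j`-th family are `c₀ + y`, `c₀` an arbitrary integral vector (depending on `j`, of any size) and `y` one of the following
vectors (represented by `0, …, q - 1`):

* `y` in any family of vectors modulo some `q` (depending on `j`), whose nontrivial Fourier coefficients are at most
  `1 / (Z (42 + 3 log q) ^ R)`, where `Z → ∞`, `Z ≤ q`;
* `β(x, z) + u(x) + w(z)` modulo a prime `P → ∞`, where `β : F ^ a × F ^ b → F ^ R` (`F` the field with `P` elements) is
  bilinear, the nontrivial combinations of its coordinates have rank at least `ρ`, `x` and `z` are in ARBITRARY sets `S`
  and `T` with `|S| |T| ≥ P ^ (a + b - ρ + δ)`, `u` and `w` are arbitrary functions (for `δ > 0` fixed);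
* the same for `β(x, z) = x z`, `x` and `z` in ARBITRARY subsets of the field of `P ^ R` elements,
  `|S| |T| ≥ P ^ (R + δ)`;
* polynomials in several variables of degree at most `P ^ (δ / 4)`, all nontrivial combinations of which have a monomial
  with at least two variables, plus arbitrary functions of the single variables, on products of ARBITRARY sets of at
  least `P ^ (1 / 2 + δ)` residues;
* polynomials in one variable of degree at most `P ^ (δ / 4)`, no nontrivial combination of which is constant, on any
  subgroup of the multiplicative group modulo `P` with at least `P ^ (1 / 2 + δ)` elements.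

**Theorem.** For all elliptic curves `E_1, …, E_n` over the complex numbers and all irreducible `V ⊆ ℂ^m` there is a
`δ > 0` such that for every such sequence of families, for large `j`, at least the proportion `δ` of the members `c` of the
`j`-th family are such that the pull-back of `V` under `F_c` has no atypical intersections with special subvarieties.

For example let `P` be a large prime and let `S` be ANY set of at least `P ^ (1 / 2 + ε)` residues modulo `P`: the coefficients
can be `R` different products of at least two different ones of the numbers `s_1, …, s_t` (modulo `P`), `s_i ∈ S`.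

New: the families of the coefficients. The residue class of coefficient vectors without atypical intersections is that of
the starting library; it is visited with positive frequency by the theorem of the starting library `N384.VF` on vectors of
residues; the estimates of the Fourier coefficients on arbitrary sets are in `U569/APL`.
-/

set_option autoImplicit false

namespace Pool.Agent.Results.MP_dd1803_nt.ArbitrarySets

open Filter
open Pool.Agent.W282.ZP (idealOf zdim)
open Pool.Agent.Results.MP_dd1803_nt.RandomMaps
open Pool.Agent.Results.MP_dd1803_nt.RandomOrbits (exists_good_class)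
open Pool.Agent.U569.APL

/-- **Zilber-Pink for rational maps with coefficients formed from arbitrary sets.** -/
theorem result {n : ℕ} (q : Fin n → ℕ) (k m : ℕ) (D : Ind q k → ℕ) (hD : ∀ i, 0 < D i)
    (hDq : ∀ j : (i : Fin n) × Fin (q i), q j.1 ≤ D (Sum.inl j)) :
    (∀ (A B : Fin n → ℂ) (V : Set (Fin m → ℂ)), (idealOf V).IsPrime → ∃ δ : ℝ, 0 < δ ∧
      ∀ (τ : ℕ → Type) (s : ∀ j, Finset (τ j)) (v : ∀ j, τ j → Coeffs m D), FlatFamilies s v →
        ∀ᶠ j in atTop, δ * (s j).card ≤
          ({i : τ j | i ∈ s j ∧ NoAtypical (A := A) (B := B) (pullback (v j i) V) m (zdim V)}.ncard : ℝ)) ∧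
    Examples (Fin m × Fin 2 × ((i : Ind q k) → Fin (D i + 1))) := by
  classical
  refine ⟨fun A B V hV => ?_, examples _⟩
  obtain ⟨Q, G, hQ, -, -, hmain⟩ := exists_good_class A B q k m V hV D hD hDq 0
  refine ⟨1 / (2 * (Q : ℝ) ^ Fintype.card (Fin m × Fin 2 × ((i : Ind q k) → Fin (D i + 1)))), by positivity,
    fun τ s v hs => ?_⟩
  filter_upwards [flat_class hs Q hQ G] with j hj
  refine hj.trans ?_
  have h1 : {i : τ j | i ∈ s j ∧ ∀ l, (Q : ℤ) ∣ v j i l - G l}.ncard ≤
      {i : τ j | i ∈ s j ∧ NoAtypical (A := A) (B := B) (pullback (v j i) V) m (zdim V)}.ncard :=
    Set.ncard_le_ncard (fun i hi => ⟨hi.1, hmain _ hi.2⟩) ((s j).finite_toSet.subset fun i hi => hi.1)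
  exact_mod_cast h1

end Pool.Agent.Results.MP_dd1803_nt.ArbitrarySets
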