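import Pool.Agent.Results.MP_dd1803_nt.RandomOrbits
import Pool.Agent.U125.NO.Vis

/-!
# MP_dd1803_nt: Zilber-Pink in split semiabelian varieties along normal sequences of coefficient vectors, for
# all elliptic curves and all subvarieties simultaneously

Let `E_i : y² = x³ + A_i x + B_i` be arbitrary elliptic curves over the complex numbers and let
`𝔖 = E_1^(q_1) × … × E_n^(q_n) × G_m^k`, of dimension `N = q_1 + … + q_n + k`, with the
coordinates `x(P_{i,l})` and `u_w`. The starting result `RandomMaps` considers the rational maps
`F_c : 𝔖 ⇢ ℂ^m` whose `m` numerators and `m` denominators are polynomials of multidegree `D` in the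
coordinates with the integral coefficient vector `c ∈ ℤ^r`; for an irreducible `V ⊆ ℂ^m` let `pullback c V` be the
pull-back of `V` under `F_c`. `Simultaneous c` (starting result `RandomOrbits`) says for a sequence `c 0, c 1, …` of
coefficient vectors: for ALL elliptic curves `E_1, …, E_n` over the complex numbers and ALL irreducible `V ⊆ ℂ^m`
there is a `δ > 0` such that for all large `N` for at least `δ N` of the first `N` vectors `c` the pull-back of `V`
under `F_c` has no atypical intersections with special subvarieties: for every `ρ` every irreducible closed subset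
of its intersection with the union of the algebraic subgroups of codimension `ρ` has dimension at most
`N - (m - dim V) - ρ`. There it is shown that almost every random orbit of a thin group has this property.

**Theorem.** Let `S` be a finite family of affine maps of `ℤ^r` with integral coefficients which is transitive at
`v` (`TransAt`): for all `q` prime to some `q₀` the maps are bijective modulo `q` and `v` can be moved to all vectors
with an invertible coordinate. Then the orbit of `v` along ANY normal sequence of indices (`Normal`: each word `u`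
occurs with the frequency `∏ p (u i)`, all `p_j > 0`) has the property `Simultaneous`.

Transitive are: (1) the digits `x ↦ b x + d`, `d ∈ {0, …, b-1}^r`; so the sequence of the vectors `(⌊b ^ t ξ_i⌋)_i` has
the property `Simultaneous` for ANY vector `ξ` of real numbers which is normal to the base `b ≥ 2`: the
coefficients of the maps `F_c` are read off, digit by digit, from the expansions of the numbers `ξ_i`; (2) all finite
families of matrices which generate the special linear group modulo all `q` prime to some `q₀`, e.g. generators
of thin groups, at all `v ≠ 0`; (3) `x ↦ β x + d_j`, if the differences of the vectors `d_j` generate a subgroup of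
finite index.

Proof. The residue class of coefficient vectors of `RandomOrbits` (`exists_good_class`) exists for a modulus `Q` all of
whose prime factors are large and contains vectors with a coordinate prime to `Q`. Modulo `Q` the orbit along a
normal sequence is equidistributed in the set of all vectors which can be reached (engine `Pool.Agent.U125.NO`),
and so the class is visited with positive frequency.
-/

set_option autoImplicit false

namespace Pool.Agent.Results.MP_dd1803_nt.NormalSequences

open Filter Topology
open Pool.Agent.W282.ZP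
open Pool.Agent.N24.RW (Walk)
open Pool.Agent.U125.NO (Normal Maps path TransAt Visits ofWalk digits allDigits digit NormalVector transAt_walk
  transAt_digits transAt_allDigits path_digit)
open Pool.Agent.Results.MP_dd1803_nt.RandomMaps
open Pool.Agent.Results.MP_dd1803_nt.RandomOrbits (exists_good_class ManyGood Simultaneous)

/-- a sequence which visits all classes with an invertible coordinate -/
theorem simultaneous_of {n : ℕ} (q : Fin n → ℕ) (k m : ℕ) (hm : 0 < m)
    (D : Ind q k → ℕ) (hD : ∀ i, 0 < D i)
    (hDq : ∀ j : (i : Fin n) × Fin (q i), q j.1 ≤ D (Sum.inl j))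
    {c : ℕ → Fin m × Fin 2 × ((i : Ind q k) → Fin (D i + 1)) → ℤ} (hc : Visits c) : Simultaneous c := by
  classical
  intro A B V hV
  obtain ⟨q₀, hq₀, h⟩ := hc
  obtain ⟨Q, G, hQ, hQp, hG, hmain⟩ := exists_good_class A B q k m V hV D hD hDq q₀
  obtain ⟨δ, hδ, h1⟩ := h Q hQ
    (Nat.coprime_of_dvd fun ℓ h1 h2 h3 => absurd (Nat.le_of_dvd hq₀ h3) (not_le.2 (hQp ℓ h1 h2)))
    G (⟨0, hm⟩, 1, fun _ => 0) (hG _)
  refine ⟨δ, hδ, ?_⟩
  filter_upwards [h1] with N hN
  refine hN.trans ?_
  have h2 : {t : ℕ | t < N ∧ ∀ i, (Q : ℤ) ∣ c t i - G i}.ncard ≤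
      {t : ℕ | t < N ∧ NoAtypical (A := A) (B := B) (pullback (c t) V) m (zdim V)}.ncard :=
    Set.ncard_le_ncard (fun t ht => ⟨ht.1, hmain _ ht.2⟩)
      ((Set.finite_Iio N).subset fun t ht => ht.1)
  exact_mod_cast h2

/-- **Orbits along normal sequences of coefficient vectors.** -/
theorem result {n : ℕ} (q : Fin n → ℕ) (k m : ℕ) (hm : 0 < m)
    (D : Ind q k → ℕ) (hD : ∀ i, 0 < D i)
    (hDq : ∀ j : (i : Fin n) × Fin (q i), q j.1 ≤ D (Sum.inl j)) :
    (∀ (α : Type) [Fintype α] (S : Maps (Fin m × Fin 2 × ((i : Ind q k) → Fin (D i + 1))) α)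
      (v : Fin m × Fin 2 × ((i : Ind q k) → Fin (D i + 1)) → ℤ), TransAt S v →
      ∀ (p : α → ℝ) (w : ℕ → α), (∀ j, 0 < p j) → Normal p w → Simultaneous (path S v w)) ∧
    (∀ (b : ℕ) [NeZero b] (x : Fin m × Fin 2 × ((i : Ind q k) → Fin (D i + 1)) → ℝ), 2 ≤ b →
      NormalVector b x → Simultaneous fun t i => ⌊(b : ℝ) ^ t * x i⌋) ∧
    (∀ (W : Walk (Fin m × Fin 2 × ((i : Ind q k) → Fin (D i + 1))))
      (v : Fin m × Fin 2 × ((i : Ind q k) → Fin (D i + 1)) → ℤ), v ≠ 0 → TransAt (ofWalk W) v) ∧
    (∀ (α : Type) [Fintype α] (β : ℤ) (d : α → Fin m × Fin 2 × ((i : Ind q k) → Fin (D i + 1)) → ℤ)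
      (j₀ : α) (M : ℕ), β ≠ 0 → 0 < M →
      (∀ i, Pi.single i (M : ℤ) ∈ AddSubgroup.closure (Set.range fun j => d j - d j₀)) →
      ∀ v, TransAt (digits β d) v) := by
  classical
  refine ⟨fun α _ S v hS p w hp hw => simultaneous_of q k m hm D hD hDq (hS.visits hp hw),
    fun b _ x hb hx => ?_, fun W v hv => transAt_walk ?_ W hv,
    fun α _ β d j₀ M hβ hM hd v => transAt_digits hβ j₀ hM hd v⟩
  · have hb0 : (0 : ℝ) < b := by
      have : 0 < b := by omega
      exact_mod_cast this
    have h1 : (fun (t : ℕ) (i : Fin m × Fin 2 × ((i : Ind q k) → Fin (D i + 1))) => ⌊(b : ℝ) ^ t * x i⌋) =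
        path (allDigits _ b) (fun i => ⌊x i⌋) (digit b x) := funext fun t => (path_digit b x t).symm
    rw [h1]
    exact simultaneous_of q k m hm D hD hDq
      ((transAt_allDigits hb _).visits (fun _ => by positivity) hx)
  · rw [Fintype.card_prod, Fintype.card_prod, Fintype.card_fin, Fintype.card_fin]
    have h1 : 0 < Fintype.card ((i : Ind q k) → Fin (D i + 1)) :=
      Fintype.card_pos_iff.2 ⟨fun _ => 0⟩
    nlinarith

end Pool.Agent.Results.MP_dd1803_nt.NormalSequences
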