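import Pool.Agent.U854.SA.Core
import Pool.Agent.U854.SA.Ell
import Pool.Agent.W282.LF.Top

/-!
# MP_dd1803_nt: Zilber-Pink and Mordell-Lang for subvarieties of `∏ E_g^(n_g) × G_m^k` from the local
behaviour at one place

Let `E_g : y² = x³ + A_g x + B_g`, `g = 1, …, r`, be elliptic curves over `ℂ` (defined over number
fields) and `𝔖 = ∏_g E_g^(q_g) × G_m^k` (`Amb`), with the coordinates `x (P_{g,i})` and `u_j`.

**Special subvarieties.** An algebraic subgroup of `𝔖` of codimension `ρ` is given, up to torsion, by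
modules of relations `∑_i c_i P_{g,i} = 0` over the rings of endomorphisms of the `E_g` (`ℤ`, or an order
in an imaginary quadratic field) and a group of multiplicative relations between the `u_j`, if the
`E_g` are pairwise not isogenous; `ρ` is the sum of the ranks. (Every product of elliptic curves and
`G_m`'s is isogenous to such an `𝔖`. The theorem is true for all `E_g`, but if some of them are isogenous
then these are not all the subgroups.) We consider more generally the cosets of algebraic subgroups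
by points of the division hull of a finitely generated group `Γ` (a group of points `Q_{g,l}` of `E_g`,
its multiples by endomorphisms, and of numbers `γ_l`): `InSpecial` says that the point is in such a
coset of codimension at least `ρ`; if there are no generators, the cosets are the torsion cosets.

**Models.** Let `K` be a number field, `σ : K → ℂ`, `v` a prime of `K` above the prime number `p`, `e` the
ramification index, and `V ⊆ (P¹)^N`, `N = dim 𝔖`, a subvariety of any dimension given by
multihomogeneous forms over `𝓞 K` with reduction modulo `v` in general position (`GeneralPosition`):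
on the reduction the locus where `a` of the coordinates are in `{0, ∞}` has dimension at most `m - a`.
The set `X ⊆ 𝔖` has the model `c + μ V` if for every point of `X` the vector of its coordinates (`x = ∞` if
`P_{g,i}` is the origin) is of the form `(c_i + μ_i y_i)_i` with `(y_i) ∈ V (ℂ)`, where `c_i ∈ K`,
`μ_i ∈ K^×`. If `y_i` is a unit at the place and `v(c_i - a) ≠ v(μ_i)` then `c_i + μ_i y_i` has the
distance `d = max(|c_i - a|, |μ_i|)` from `a` (`AtDistance`). The local types are as follows.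

* The coordinates `x (P_{g,i})` are near to the `x`-coordinate of a torsion point `T` of `E_g`: either
  `T` is the origin and `d = |ϖ|^(-f)`, `a = 0`, or `T` is a point with integral `x`-coordinate and with
  `y (T)` a unit, `p ≠ 2`, and `d = |ϖ|^h`, `f = 2 h`. The level `f = f_{g,i}` satisfies `2 f > e`, and the
  levels which belong to the same `g` are pairwise incongruent modulo `e`. The `A_g`, `B_g` are in `K`
  and integral at `v`; good reduction is not assumed.
* At most one torus coordinate is polar: `d = |ϖ|^(-o)` for `a = 0`, with an integer `o ≠ 0`. The other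
  torus coordinates are near to torsion points: `a = ζ_j` is a root of unity in `K`, `d_j^(p-1) < |p|`,
  and the distances `d_j` of different such coordinates are incongruent, `d_j / d_j' ∉ |p|^ℤ`.
* The generators of `Γ` are near to torsion points in the same sense, and all the levels (and all the
  distances) are incongruent.

(`Place` is such a model. The field `K` may depend on it.)

**Theorem** (`result`).
1. If `X ⊆ 𝔖` has such a model at ONE place then `X` has no atypical intersection: all irreducible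
   closed subsets of `X ∩ 𝔖^[≥ ρ]`, where `𝔖^[≥ ρ]` is the union of ALL the cosets of codimension at least
   `ρ`, have dimension at most `m - ρ`, and all points of `X ∩ 𝔖^[≥ ρ]` have at most this transcendence
   degree. In particular `X ∩ 𝔖^[> m]` is empty. This holds for all `r`, `q_g` and `k` and all `m`.
2. In particular the curves with `x (P_{g,i}) = c + μ (t - b) / (t - a)`, `u_j = c + μ (t - b) / (t - a)`,
   where `a`, `b` are `2 N` elements of `𝓞 K` pairwise incongruent modulo `v`, do not meet any coset of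
   codimension at least two.

Starting results for this `𝔖` concern scalings by `β`-th roots of many spread out integers
(`EllipticScaledImages`: `β` and a number of primes grow with the degrees), a positive proportion of
all pull-backs or of all rational maps, and sequences of such, and almost all subgroups or translates.

Proof: over the place there is a valuation ring of `ℂ` which extends the Gauss valuation of the
algebraically independent coordinates of the point, with rational values. If the point is atypical,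
there is a nontrivial relation between points `P_{g,i}` (or between `u_j`) whose `y`-values are units.
By the addition formula `P_{g,i} ∓ T` is near to the origin, `|x (P_{g,i} ∓ T)| = |ϖ|^(-f)`. The
independence over the endomorphism ring of points near to the origin with incongruent levels is
`Pool.Agent.TH971.RF.rel_placeE` of the starting library, and the one for the torus is the one of
`MP_defd1c_ag.OnePlace`.
-/

set_option autoImplicit false

namespace Pool.Agent.Results.MP_dd1803_nt.OnePlace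

open NumberField IsDedekindDomain

/-- The elliptic curve `y² = x³ + a x + b`. -/
def curve (a b : ℂ) : WeierstrassCurve.Affine ℂ := ⟨0, 0, 0, a, b⟩

/-- The `x`-coordinate of a point of the curve (`0` for the origin). -/
def xCoord {a b : ℂ} : (curve a b).Point → ℂ
  | .zero => 0
  | .some x _ _ => x

/-- The map `φ` of the points of the curve `y² = x³ + a x + b` to itself is given on the
`x`-coordinates by a rational function `u / w` with `u(x) / w(x) ~ x / c²` for `x → ∞`. -/
def ActsByRational {a b : ℂ} (c : ℂ) (φ : (curve a b).Point → (curve a b).Point) : Prop :=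
  ∃ u w : Polynomial ℂ, w ≠ 0 ∧ u.natDegree = w.natDegree + 1 ∧
    w.leadingCoeff = c ^ 2 * u.leadingCoeff ∧
    ∀ P : (curve a b).Point, P ≠ 0 → w.eval (xCoord P) ≠ 0 →
      φ P ≠ 0 ∧ xCoord (φ P) * w.eval (xCoord P) = u.eval (xCoord P)

/-- A ring of endomorphisms of the curve `y² = x³ + a x + b`: a ring `O` of complex numbers which
acts on the group of points. For an endomorphism which is multiplication by `λ` on the tangent space
at the origin the number `λ` is an integer or an imaginary quadratic integer, in particular it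
satisfies an equation `λ² - T λ + N = 0` with integers `T, N`, and if it is not an integer, the
`x`-coordinate of the image of a point is a rational function `u / w` of the `x`-coordinate of the
point, with `u(x) / w(x) ~ x / λ²` for `x → ∞`. (The integers in `O` act by multiplication, as `act`
is a homomorphism of rings.) -/
structure EndRing (a b : ℂ) where
  /-- the ring -/
  O : Subring ℂ
  /-- its action on the points -/
  act : O →+* AddMonoid.End (curve a b).Point
  quad : ∀ c : O, ∃ T N : ℤ, (c : ℂ) ^ 2 - T * c + N = 0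
  rat : ∀ c : O, (∀ n : ℤ, (c : ℂ) ≠ n) → ActsByRational c (act c)

/-- The linear combination `∑ c_l (P_l)` of points with endomorphisms `c_l` as coefficients. -/
noncomputable def EndRing.comb {a b : ℂ} (E : EndRing a b) {q : ℕ} (c : Fin q → E.O)
    (P : Fin q → (curve a b).Point) : (curve a b).Point :=
  ∑ l, E.act (c l) (P l)

/-- The coefficients `c_1, …, c_q` are a relation between the points `P_1, …, P_q` modulo the division
hull of the module generated by the points `Q_l`: a positive multiple of `∑ c_l (P_l)` is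
`∑ d_l (Q_l)` for some endomorphisms `d_l`. Without generators `Q_l`: `∑ c_l (P_l)` is a torsion
point. -/
def EndRing.Relation {a b : ℂ} (E : EndRing a b) {q s : ℕ} (Q : Fin s → (curve a b).Point)
    (c : Fin q → E.O) (P : Fin q → (curve a b).Point) : Prop :=
  ∃ t : ℕ, 0 < t ∧ ∃ d : Fin s → E.O, t • E.comb c P = E.comb d Q

/-- The point `(P_1, …, P_q)` of the `q`-th power of the curve is in a coset of an algebraic subgroup
of codimension at least `ρ` by a point of the division hull of the module generated by the `Q_l`: the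
module of the relations between the `P_l` modulo this hull, over some ring of endomorphisms of the
curve, has rank at least `ρ`, it has `ρ` linearly independent elements. -/
def InCoset {a b : ℂ} {q s : ℕ} (Q : Fin s → (curve a b).Point)
    (P : Fin q → (curve a b).Point) (ρ : ℕ) : Prop :=
  ∃ (E : EndRing a b) (c : Fin ρ → Fin q → E.O),
    LinearIndependent ℂ (fun i l => (c i l : ℂ)) ∧ ∀ i, E.Relation Q (c i) P

/-- The point `(u_1, …, u_k)` of `G_m^k` is in a coset of an algebraic subgroup of codimension at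
least `ρ` by a point of the division hull of the group generated by the `γ_l`: there are `ρ` linearly
independent vectors `a` such that a positive power of `∏ u_w ^ (a_w)` is in this group. -/
def InTorusCoset {k s : ℕ} (γ : Fin s → ℂ) (u : Fin k → ℂ) (ρ : ℕ) : Prop :=
  ∃ a : Fin ρ → Fin k → ℤ, LinearIndependent ℤ a ∧
    ∀ i, ∃ t : ℕ, 0 < t ∧ ∃ c : Fin s → ℤ, (∏ w, u w ^ a i w) ^ t = ∏ l, γ l ^ c l

/-- The complex points of `𝔖 = E_1^(q_1) × … × E_r^(q_r) × G_m^k`, with
`E_g : y² = x³ + A_g x + B_g`. -/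
structure Amb {r : ℕ} (A B : Fin r → ℂ) (q : Fin r → ℕ) (k : ℕ) where
  /-- the points `P_{g,i}` of `E_g` -/
  P : ∀ g, Fin (q g) → (curve (A g) (B g)).Point
  /-- the coordinates `u_w` in `G_m^k` -/
  u : Fin k → ℂ
  ne_zero : ∀ w, u w ≠ 0

/-- The index set of the coordinates `x(P_{g,i})` and `u_w`. -/
abbrev Ind {r : ℕ} (q : Fin r → ℕ) (k : ℕ) : Type := ((g : Fin r) × Fin (q g)) ⊕ Fin k

/-- The coordinates `x(P_{g,i})` (`0` if `P_{g,i}` is the origin) and `u_w` of a point. -/
def Amb.coord {r : ℕ} {A B : Fin r → ℂ} {q : Fin r → ℕ} {k : ℕ} (z : Amb A B q k) :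
    Ind q k → ℂ :=
  Sum.elim (fun j => xCoord (z.P j.1 j.2)) z.u

/-- Generators of `Γ`: points `Q_{g,l}` of the `E_g`, and numbers `γ_l`. -/
structure Gens {r : ℕ} (A B : Fin r → ℂ) where
  s : Fin r → ℕ
  Q : ∀ g, Fin (s g) → (curve (A g) (B g)).Point
  s' : ℕ
  γ : Fin s' → ℂ

/-- The point `z` is in a coset of an algebraic subgroup of `𝔖` of codimension at least `ρ` (the
product of algebraic subgroups of the powers of the `E_g` and of `G_m^k`) by a point of the division
hull of `Γ`. -/
def InSpecial {r : ℕ} {A B : Fin r → ℂ} {q : Fin r → ℕ} {k : ℕ} (Γ : Gens A B)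
    (z : Amb A B q k) (ρ : ℕ) : Prop :=
  ∃ (a : Fin r → ℕ) (b : ℕ), ρ ≤ ∑ g, a g + b ∧ (∀ g, InCoset (Γ.Q g) (z.P g) (a g)) ∧
    InTorusCoset Γ.γ z.u b

/-- A form with coefficients in `R` which is homogeneous of degree `deg i` in `(ξ i, ζ i)` for each
`i`: the coefficients of the monomials `∏ ξ_i ^ (e_i) ζ_i ^ (deg i - e_i)`. -/
structure MultiForm (R : Type) (ι : Type) where
  deg : ι → ℕ
  coeff : ((i : ι) → Fin (deg i + 1)) → R

/-- The value of the form at a point over `k`, for a ring homomorphism `R → k`. -/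
def MultiForm.eval {R k : Type} [CommRing R] [CommRing k] {ι : Type} [Fintype ι] [DecidableEq ι]
    (F : MultiForm R ι) (π : R →+* k) (ξ ζ : ι → k) : k :=
  ∑ e, π (F.coeff e) * ∏ i, ξ i ^ (e i : ℕ) * ζ i ^ (F.deg i - e i)

/-- The subvariety of `(P¹)^ι` given by the forms has reduction modulo `v` in general position: for
each point `(ξ_i : ζ_i)_i` of the reduction over an extension field `k` of `𝓞 K / v`, the number of
coordinates in `{0, ∞}` plus the number of any family of algebraically independent coordinates is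
at most `m`. -/
def GeneralPosition {K : Type} [Field K] [NumberField K] (v : HeightOneSpectrum (𝓞 K)) {ι : Type}
    [Fintype ι] [DecidableEq ι] {T : Type} (F : T → MultiForm (𝓞 K) ι) (m : ℕ) : Prop :=
  ∀ (k : Type) [Field k] [Algebra (𝓞 K ⧸ v.asIdeal) k] (ξ ζ : ι → k),
    (∀ i, ξ i ≠ 0 ∨ ζ i ≠ 0) →
    (∀ t, (F t).eval
      ((algebraMap (𝓞 K ⧸ v.asIdeal) k).comp (Ideal.Quotient.mk v.asIdeal)) ξ ζ = 0) →
    ∀ W : Finset ι, AlgebraicIndependent (𝓞 K ⧸ v.asIdeal) (fun i : W => ξ i / ζ i) →
      {i | ξ i = 0 ∨ ζ i = 0}.ncard + W.card ≤ m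

/-- The absolute values of `c - a` and `μ` are different, and the larger one is `d`. So the numbers
`c + μ y`, `y` a unit, have the distance `d` from `a`. -/
def AtDistance {K : Type} [Field K] [NumberField K] (v : HeightOneSpectrum (𝓞 K)) (c μ a : K)
    (d : WithZero (Multiplicative ℤ)) : Prop :=
  v.valuation K (c - a) ≠ v.valuation K μ ∧ max (v.valuation K (c - a)) (v.valuation K μ) = d

/-- The numbers `c + μ y`, `y` a unit, are near to the `x`-coordinate of a torsion point of the curve
`y² = x³ + a x + b`, with level `f`: near to infinity, at distance `|ϖ|^(-f)` from `0`, or at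
distance `|ϖ|^h`, `f = 2 h > 0`, from the integral `x`-coordinate of a torsion point whose
`y`-coordinate is a unit, and `p ≠ 2`. -/
def NearTorsionPoint {K : Type} [Field K] [NumberField K] (σ : K →+* ℂ)
    (v : HeightOneSpectrum (𝓞 K)) (p : ℕ) (a b : ℂ) (c μ : K) (f : ℕ) : Prop :=
  AtDistance v c μ 0 (WithZero.exp (f : ℤ)) ∨
    (p ≠ 2 ∧ ∃ (x y : K) (h : (curve a b).Nonsingular (σ x) (σ y)) (N k : ℕ), 0 < N ∧
      N • WeierstrassCurve.Affine.Point.some (σ x) (σ y) h = 0 ∧ v.valuation K x ≤ 1 ∧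
      v.valuation K y = 1 ∧ 0 < k ∧ f = 2 * k ∧ AtDistance v c μ x (WithZero.exp (-(k : ℤ))))

/-- The torus coordinates which are not polar, and, if there are any, the generators of `Γ`. -/
def NearTorsion {k s : ℕ} (P : Finset (Fin k)) : Fin k ⊕ Fin s → Prop :=
  Sum.elim (fun j => j ∉ P) (fun _ => P ≠ Finset.univ)

/-- A place `v` of a number field `K` embedded into `ℂ`, and for each coordinate a centre `c_i` and a
scale `μ_i` in `K`, with the local types described above. -/
structure LocalData {r : ℕ} {A B : Fin r → ℂ} (q : Fin r → ℕ) (k : ℕ) (Γ : Gens A B) where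
  K : Type
  [field : Field K]
  [numberField : NumberField K]
  σ : K →+* ℂ
  v : HeightOneSpectrum (𝓞 K)
  p : ℕ
  prime : p.Prime
  mem : (p : 𝓞 K) ∈ v.asIdeal
  /-- the ramification index -/
  e : ℕ
  ram : v.valuation K (p : K) = WithZero.exp (-(e : ℤ))
  c : Ind q k → K
  μ : Ind q k → K
  scale_ne : ∀ i, μ i ≠ 0
  -- the elliptic curves and the points on them
  a : Fin r → K
  b : Fin r → K
  a_eq : ∀ g, σ (a g) = A g
  b_eq : ∀ g, σ (b g) = B g
  a_int : ∀ g, v.valuation K (a g) ≤ 1
  b_int : ∀ g, v.valuation K (b g) ≤ 1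
  f : ∀ g, Fin (q g) ⊕ Fin (Γ.s g) → ℕ
  elliptic : ∀ g i,
    NearTorsionPoint σ v p (A g) (B g) (c (Sum.inl ⟨g, i⟩)) (μ (Sum.inl ⟨g, i⟩)) (f g (Sum.inl i))
  elliptic_gen : ∀ g l, ∃ (N : ℕ) (T : (curve (A g) (B g)).Point) (x : K), 0 < N ∧ N • T = 0 ∧
    xCoord (Γ.Q g l + T) = σ x ∧ v.valuation K x = WithZero.exp (f g (Sum.inr l) : ℤ)
  level : ∀ g i, e < 2 * f g i
  level_ne : ∀ g i j, i ≠ j → ¬ f g i ≡ f g j [MOD e]
  -- the torus coordinates
  P : Finset (Fin k)
  card_le : P.card ≤ 1
  o : Fin k → ℤ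
  o_ne : ∀ j ∈ P, o j ≠ 0
  polar : ∀ j ∈ P, AtDistance v (c (Sum.inr j)) (μ (Sum.inr j)) 0 (WithZero.exp (o j))
  gen : Fin Γ.s' → K
  gen_eq : ∀ i, σ (gen i) = Γ.γ i
  gen_unit : ∀ i, v.valuation K (gen i) = 1
  ζ : Fin k ⊕ Fin Γ.s' → K
  dist : Fin k ⊕ Fin Γ.s' → WithZero (Multiplicative ℤ)
  torsion : ∀ j, j ∉ P →
    AtDistance v (c (Sum.inr j)) (μ (Sum.inr j)) (ζ (Sum.inl j)) (dist (Sum.inl j))
  gen_dist : ∀ i, NearTorsion P (Sum.inr i : Fin k ⊕ Fin Γ.s') →
    v.valuation K (gen i - ζ (Sum.inr i)) = dist (Sum.inr i)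
  root : ∀ b, NearTorsion P b → ∃ N : ℕ, 0 < N ∧ ζ b ^ N = 1
  small : ∀ b, NearTorsion P b → dist b ≠ 0 ∧ dist b ^ (p - 1) < v.valuation K p
  incongruent : ∀ b b', NearTorsion P b → NearTorsion P b' → b ≠ b' → ∀ r t : ℕ,
    dist b * v.valuation K p ^ r ≠ dist b' * v.valuation K p ^ t

attribute [instance] LocalData.field LocalData.numberField

variable {r : ℕ} {A B : Fin r → ℂ} {q : Fin r → ℕ} {k : ℕ} {Γ : Gens A B}

/-- The set of all points of `𝔖` whose coordinates are `(c_i + μ_i y_i)_i`, where `y` is a point of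
`(P¹)^N` over `ℂ` at which all the forms vanish (with homogeneous coordinates `(ξ_i : ζ_i)`). -/
def LocalData.image (D : LocalData q k Γ) {T : Type} (F : T → MultiForm (𝓞 D.K) (Ind q k)) :
    Set (Amb A B q k) :=
  {z | ∃ ξ ζ : Ind q k → ℂ, (∀ i, ξ i ≠ 0 ∨ ζ i ≠ 0) ∧
    (∀ t, (F t).eval (D.σ.comp (algebraMap (𝓞 D.K) D.K)) ξ ζ = 0) ∧
    (∀ g i, (ζ (Sum.inl ⟨g, i⟩) = 0 ∧ z.P g i = 0) ∨
      (ζ (Sum.inl ⟨g, i⟩) ≠ 0 ∧ z.P g i ≠ 0 ∧ xCoord (z.P g i) = D.σ (D.c (Sum.inl ⟨g, i⟩)) +
        D.σ (D.μ (Sum.inl ⟨g, i⟩)) * (ξ (Sum.inl ⟨g, i⟩) / ζ (Sum.inl ⟨g, i⟩)))) ∧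
    ∀ j, ζ (Sum.inr j) ≠ 0 ∧
      z.u j = D.σ (D.c (Sum.inr j)) + D.σ (D.μ (Sum.inr j)) * (ξ (Sum.inr j) / ζ (Sum.inr j))}

/-- A model of `X` at a place: local data and forms whose reduction is in general position, such
that `X ⊆ c + μ V`. -/
structure Place (Γ : Gens A B) (X : Set (Amb A B q k)) (m : ℕ) extends LocalData q k Γ where
  T : Type
  F : T → MultiForm (𝓞 K) (Ind q k)
  general : GeneralPosition v F m
  model : X ⊆ toLocalData.image F

/-- `X` has no atypical intersection. For all `ρ` the points of `X ∩ 𝔖^[≥ ρ]` have transcendence degree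
at most `m - ρ`, and every irreducible closed subset of `X ∩ 𝔖^[≥ ρ]` has dimension at most `m - ρ`.
More precisely, let `W` be an irreducible closed set of vectors, such that all vectors in `W` outside
of some hypersurface `h = 0`, which does not contain `W`, are the vectors of coordinates (numbered in
any way) of points of `X ∩ 𝔖^[≥ ρ]`. Then `dim W + ρ ≤ m`. -/
def NoAtypical (Γ : Gens A B) (X : Set (Amb A B q k)) (m : ℕ) : Prop :=
  (∀ (ρ : ℕ), ∀ z ∈ X, InSpecial Γ z ρ → ∀ W : Finset (Ind q k),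
    AlgebraicIndependent ℚ (fun i : W => z.coord i) → W.card + ρ ≤ m) ∧
  ∀ (ρ s : ℕ) (ε : Fin s ≃ Ind q k) (W : Set (Fin s → ℂ)) (h : MvPolynomial (Fin s) ℂ),
    (∀ w ∈ W, MvPolynomial.eval w h ≠ 0 →
      ∃ z ∈ X, InSpecial Γ z ρ ∧ ∀ i, w i = z.coord (ε i)) →
    Pool.Agent.W282.ZP.zcl W ⊆ W → (Pool.Agent.W282.ZP.idealOf W).IsPrime →
    h ∉ Pool.Agent.W282.ZP.idealOf W →
    Pool.Agent.W282.ZP.zdim W + (ρ : Cardinal) ≤ (m : Cardinal)

/-- The curve with the coordinates `c_i + μ_i (t - b_i) / (t - a_i)`, `t ∈ ℂ`; for `t = a_i` the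
coordinate is the origin of the elliptic curve. -/
def moebiusCurve (D : LocalData q k Γ) (a b : Ind q k → 𝓞 D.K) : Set (Amb A B q k) :=
  {z | ∃ t : ℂ, (∀ g i, (t = D.σ (a (Sum.inl ⟨g, i⟩)) ∧ z.P g i = 0) ∨
      (t ≠ D.σ (a (Sum.inl ⟨g, i⟩)) ∧ z.P g i ≠ 0 ∧
        xCoord (z.P g i) = D.σ (D.c (Sum.inl ⟨g, i⟩)) + D.σ (D.μ (Sum.inl ⟨g, i⟩)) *
          ((t - D.σ (b (Sum.inl ⟨g, i⟩))) / (t - D.σ (a (Sum.inl ⟨g, i⟩)))))) ∧
    ∀ j, t ≠ D.σ (a (Sum.inr j)) ∧ z.u j = D.σ (D.c (Sum.inr j)) + D.σ (D.μ (Sum.inr j)) *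
      ((t - D.σ (b (Sum.inr j))) / (t - D.σ (a (Sum.inr j))))}

theorem xCoord_eq {a b : ℂ} (P : (curve a b).Point) :
    xCoord P = Pool.Agent.W466.EP.xx (A := a) (B := b) P := by
  rcases P with _ | ⟨x, y, h⟩
  · rfl
  · rfl

/-- the ring of endomorphisms as in the helper files -/
def toE {a b : ℂ} (E : EndRing a b) : Pool.Agent.TH971.RF.EndRing a b where
  O := E.O
  act := E.act
  quad := E.quad
  rat := by
    intro c hc
    obtain ⟨u, w, h1, h2, h3, h4⟩ := E.rat c hc
    refine ⟨u, w, h1, h2, h3, fun P hP hw => ?_⟩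
    have e1 : xCoord (a := a) (b := b) P = Pool.Agent.W466.EP.xx (A := a) (B := b) P := xCoord_eq P
    have hw' : w.eval (xCoord (a := a) (b := b) P) ≠ 0 := by rw [e1]; exact hw
    have h5 := h4 P hP hw'
    have e2 : xCoord (a := a) (b := b) (E.act c P) =
      Pool.Agent.W466.EP.xx (A := a) (B := b) (E.act c P) := xCoord_eq _
    rw [e1, e2] at h5
    exact h5

theorem comb_add {a b : ℂ} (E : EndRing a b) {q : ℕ} (c c' : Fin q → E.O)
    (P : Fin q → (curve a b).Point) : E.comb (c + c') P = E.comb c P + E.comb c' P := by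
  unfold EndRing.comb
  rw [← Finset.sum_add_distrib]
  refine Finset.sum_congr rfl fun l _ => ?_
  rw [Pi.add_apply, map_add]
  rfl

theorem comb_smul {a b : ℂ} (E : EndRing a b) {q : ℕ} (x : E.O) (c : Fin q → E.O)
    (P : Fin q → (curve a b).Point) : E.comb (x • c) P = E.act x (E.comb c P) := by
  simp [EndRing.comb, map_sum]

theorem comb_nsmul {a b : ℂ} (E : EndRing a b) {q : ℕ} (t : ℕ) (c : Fin q → E.O)
    (P : Fin q → (curve a b).Point) : E.comb (t • c) P = t • E.comb c P := by
  induction t with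
  | zero =>
    rw [zero_nsmul, zero_nsmul]
    simp [EndRing.comb]
  | succ t ih => rw [succ_nsmul, succ_nsmul, comb_add, ih]

/-- the module of the relations -/
def relMod {a b : ℂ} (E : EndRing a b) {q s : ℕ} (Q : Fin s → (curve a b).Point)
    (P : Fin q → (curve a b).Point) : Submodule E.O (Fin q → E.O) where
  carrier := {c | E.Relation Q c P}
  zero_mem' := ⟨1, one_pos, 0, by simp [EndRing.comb]⟩
  add_mem' := by
    rintro c c' ⟨t, ht, d, h⟩ ⟨t', ht', d', h'⟩
    refine ⟨t * t', Nat.mul_pos ht ht', t' • d + t • d', ?_⟩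
    rw [comb_add, comb_add, nsmul_add, comb_nsmul, comb_nsmul, mul_nsmul, h, mul_comm t t',
      mul_nsmul, h']
  smul_mem' := by
    rintro x c ⟨t, ht, d, h⟩
    refine ⟨t, ht, x • d, ?_⟩
    rw [comb_smul, comb_smul, ← map_nsmul, h]

theorem le_finrank {a b : ℂ} (E : EndRing a b) {q s ρ : ℕ} (Q : Fin s → (curve a b).Point)
    (P : Fin q → (curve a b).Point)
    (c : Fin ρ → Fin q → E.O) (hc : LinearIndependent ℂ (fun i l => (c i l : ℂ)))
    (h : ∀ i, E.Relation Q (c i) P) : ρ ≤ Module.finrank E.O (relMod E Q P) := by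
  have h1 : LinearIndependent E.O (fun i => (⟨c i, h i⟩ : relMod E Q P)) := by
    rw [Fintype.linearIndependent_iff] at hc ⊢
    intro g hg i
    have h2 : ∑ i, (g i : ℂ) • (fun l => (c i l : ℂ)) = 0 := by
      funext l
      have h3 := congrArg (fun v : relMod E Q P => (((v : Fin q → E.O) l : E.O) : ℂ)) hg
      simpa [Finset.sum_apply] using h3
    exact_mod_cast hc _ h2 i
  have h2 := h1.cardinal_le_rank
  have h3 : Module.rank E.O (relMod E Q P) < Cardinal.aleph0 := by
    refine (Submodule.rank_le _).trans_lt ?_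
    rw [rank_fun']
    exact Cardinal.natCast_lt_aleph0
  have h4 := Cardinal.toNat_le_toNat h2 h3
  simpa [Module.finrank] using h4

/-- relations supported outside a small set -/
theorem exists_relation {O : Type} [CommRing O] [Nontrivial O] {k : ℕ}
    (M : Submodule O (Fin k → O)) (B : Finset (Fin k))
    (h : B.card < Module.finrank O M) : ∃ a ∈ M, a ≠ 0 ∧ ∀ j ∈ B, a j = 0 := by
  classical
  by_contra hcon
  push Not at hcon
  let f : M →ₗ[O] (B → O) :=
    (LinearMap.funLeft O O (fun j : B => (j : Fin k))).comp M.subtype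
  have hf : Function.Injective f := by
    rw [injective_iff_map_eq_zero]
    intro a ha
    by_contra hne
    obtain ⟨j, hj, hj'⟩ := hcon a a.2 (fun h => hne (Subtype.ext h))
    exact hj' (congrFun ha ⟨j, hj⟩)
  have h1 := LinearMap.finrank_le_finrank_of_injective hf
  rw [Module.finrank_pi, Fintype.card_coe] at h1
  omega

/-- a relation is a relation with a point of the division hull -/
theorem hull_point {k s : ℕ} (γ : Fin s → ℂ) (a : Fin k → ℤ) (ha : a ≠ 0)
    (c : Fin s → ℤ) :
    ∃ η : Fin k → ℂ, (∀ j, ∃ N : ℕ, 0 < N ∧ ∃ c' : Fin s → ℤ, η j ^ N = ∏ i, γ i ^ c' i) ∧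
      ∏ j, η j ^ a j = ∏ i, γ i ^ c i := by
  classical
  obtain ⟨j₀, hj₀⟩ : ∃ j, a j ≠ 0 := by
    by_contra h
    push Not at h
    exact ha (funext h)
  have hpos : 0 < (a j₀).natAbs := Int.natAbs_pos.2 hj₀
  obtain ⟨z, hz⟩ := IsAlgClosed.exists_pow_nat_eq
    (∏ i, γ i ^ (c i * (a j₀).sign)) hpos
  refine ⟨fun j => if j = j₀ then z else 1, ?_, ?_⟩
  · intro j
    by_cases hj : j = j₀
    · refine ⟨(a j₀).natAbs, hpos, fun i => c i * (a j₀).sign, ?_⟩
      simp only [hj, if_true]
      exact hz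
    · refine ⟨1, one_pos, 0, ?_⟩
      simp [hj]
  · have h1 : ∏ j, (if j = j₀ then z else 1) ^ a j = z ^ a j₀ := by
      rw [Finset.prod_eq_single j₀]
      · rw [if_pos rfl]
      · intro j _ hj
        rw [if_neg hj, one_zpow]
      · intro h
        exact absurd (Finset.mem_univ j₀) h
    have h2 : a j₀ = ((a j₀).natAbs : ℤ) * (a j₀).sign := by
      rw [mul_comm]
      exact (Int.sign_mul_natAbs (a j₀)).symm
    have h3 : (a j₀).sign * (a j₀).sign = 1 := by
      rcases Int.lt_trichotomy (a j₀) 0 with h | h | h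
      · rw [Int.sign_eq_neg_one_of_neg h]; norm_num
      · exact absurd h hj₀
      · rw [Int.sign_eq_one_of_pos h]; norm_num
    show ∏ j, (if j = j₀ then z else 1) ^ a j = _
    rw [h1]
    conv_lhs => rw [h2]
    rw [zpow_mul, zpow_natCast, hz, ← Finset.prod_zpow]
    refine Finset.prod_congr rfl fun i _ => ?_
    rw [← zpow_mul, mul_assoc, h3, mul_one]

/-- the group of the multiplicative relations -/
def relTor {k s : ℕ} (γ : Fin s → ℂ) (hγ : ∀ i, γ i ≠ 0) (u : Fin k → ℂ) (hu : ∀ w, u w ≠ 0) :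
    Submodule ℤ (Fin k → ℤ) where
  carrier := {a | ∃ t : ℕ, 0 < t ∧ ∃ c : Fin s → ℤ, (∏ w, u w ^ a w) ^ t = ∏ l, γ l ^ c l}
  zero_mem' := ⟨1, one_pos, 0, by simp⟩
  add_mem' := by
    rintro a a' ⟨t, ht, c, h⟩ ⟨t', ht', c', h'⟩
    refine ⟨t * t', Nat.mul_pos ht ht', fun l => t' * c l + t * c' l, ?_⟩
    have e1 : ∏ w, u w ^ (a + a') w = (∏ w, u w ^ a w) * ∏ w, u w ^ a' w := by
      rw [← Finset.prod_mul_distrib]
      exact Finset.prod_congr rfl fun w _ => zpow_add₀ (hu w) _ _
    rw [e1, mul_pow, pow_mul, h, mul_comm t t', pow_mul, h', ← Finset.prod_pow, ← Finset.prod_pow,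
      ← Finset.prod_mul_distrib]
    refine Finset.prod_congr rfl fun l _ => ?_
    rw [zpow_add₀ (hγ l), mul_comm (t' : ℤ), mul_comm (t : ℤ), zpow_mul, zpow_mul, zpow_natCast,
      zpow_natCast]
  smul_mem' := by
    rintro z a ⟨t, ht, c, h⟩
    refine ⟨t, ht, fun l => z * c l, ?_⟩
    have e1 : ∏ w, u w ^ (z • a) w = (∏ w, u w ^ a w) ^ z := by
      rw [← Finset.prod_zpow]
      refine Finset.prod_congr rfl fun w _ => ?_
      rw [Pi.smul_apply, smul_eq_mul, mul_comm, zpow_mul]
    rw [e1, ← zpow_natCast, ← zpow_mul, mul_comm z, zpow_mul, zpow_natCast, h, ← Finset.prod_zpow]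
    refine Finset.prod_congr rfl fun l _ => ?_
    show (γ l ^ c l) ^ z = γ l ^ (z * c l)
    rw [mul_comm z, zpow_mul]

theorem le_finrank_tor {k s ρ : ℕ} (γ : Fin s → ℂ) (hγ : ∀ i, γ i ≠ 0) (u : Fin k → ℂ)
    (hu : ∀ w, u w ≠ 0) (a : Fin ρ → Fin k → ℤ) (ha : LinearIndependent ℤ a)
    (h : ∀ i, ∃ t : ℕ, 0 < t ∧ ∃ c : Fin s → ℤ, (∏ w, u w ^ a i w) ^ t = ∏ l, γ l ^ c l) :
    ρ ≤ Module.finrank ℤ (relTor γ hγ u hu) := by
  have h1 : LinearIndependent ℤ (fun i => (⟨a i, h i⟩ : relTor γ hγ u hu)) :=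
    LinearIndependent.of_comp (relTor γ hγ u hu).subtype ha
  have h2 := h1.fintype_card_le_finrank
  rwa [Fintype.card_fin] at h2

/-- one polar coordinate -/
theorem polar_zero {k : ℕ} {P : Finset (Fin k)} {o : Fin k → ℤ} (hP : P.card ≤ 1)
    (ho : ∀ j ∈ P, o j ≠ 0) {a : Fin k → ℤ} (h : ∑ j ∈ P, a j * o j = 0) : ∀ j ∈ P, a j = 0 := by
  intro j hj
  have h1 : P = {j} := by
    refine Finset.eq_singleton_iff_unique_mem.2 ⟨hj, fun i hi => ?_⟩
    exact Finset.card_le_one.1 hP i hi j hj
  rw [h1, Finset.sum_singleton] at h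
  exact (mul_eq_zero.1 h).resolve_right (ho j hj)

theorem main_pt {X : Set (Amb A B q k)} {m : ℕ} (D : Place Γ X m) {ρ : ℕ} {z : Amb A B q k}
    (hzX : z ∈ X) (hz : InSpecial Γ z ρ) (W : Finset (Ind q k))
    (hW : AlgebraicIndependent ℚ (fun i : W => z.coord i)) : W.card + ρ ≤ m := by
  classical
  obtain ⟨ξ, ζ, hξζ, hF, hell, htor⟩ := D.model hzX
  -- the coordinates
  let y : Ind q k → ℂ := fun i => ξ i / ζ i
  have hWx : ∀ i ∈ W, z.coord i = D.σ (D.c i) + D.σ (D.μ i) * y i := by
    intro i hi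
    rcases i with ⟨g, i⟩ | j
    · rcases hell g i with ⟨-, h⟩ | ⟨-, -, h⟩
      · exfalso
        have h1 := hW.transcendental ⟨_, hi⟩
        apply h1
        show IsAlgebraic ℚ (xCoord (z.P g i))
        rw [h]
        exact isAlgebraic_zero
      · exact h
    · exact (htor j).2
  have hWy : AlgebraicIndependent ℚ (fun i : W => ξ i / ζ i) := by
    let _ : Algebra D.K ℂ := D.σ.toAlgebra
    have h1 : AlgebraicIndependent D.K (fun i : W => z.coord i) := hW.extendScalars D.K
    have h2 : AlgebraicIndependent D.K (fun i : W => y i) :=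
      Pool.Agent.N135.ZO.indep_affine (fun i : W => D.c i) (fun i : W => D.μ i)
        (fun i => D.scale_ne i) (fun i => by rw [hWx i i.2]; rfl) h1
    exact h2.restrictScalars (algebraMap ℚ D.K).injective
  obtain ⟨V, hA1, hA2, hrat, hcount⟩ := Pool.Agent.U854.SA.place_core D.σ D.v D.prime D.mem
    (fun t => ⟨(D.F t).deg, (D.F t).coeff⟩) D.general hξζ hF W hWy
  have hpV : V.valuation (D.p : ℂ) < 1 := by
    have := (hA2 (D.p : 𝓞 D.K)).2 D.mem
    simpa using this
  have hpK : (D.p : D.K) ≠ 0 := by exact_mod_cast D.prime.ne_zero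
  have hpC : (D.p : ℂ) ≠ 0 := by exact_mod_cast D.prime.ne_zero
  have hpV0 : V.valuation (D.p : ℂ) ≠ 0 := (Valuation.ne_zero_iff _).2 hpC
  have hpnon : (D.p : ℂ) ∈ V.nonunits := (V.mem_nonunits_iff).2 hpV
  have harch := hrat.arch hpV hpV0
  obtain ⟨ϖ, hϖ⟩ := D.v.valuation_exists_uniformizer D.K
  have hϖ0 : ϖ ≠ 0 := by
    rintro rfl
    rw [map_zero] at hϖ
    exact absurd hϖ.symm WithZero.coe_ne_zero
  have hϖlt : D.v.valuation D.K ϖ < 1 := by
    rw [hϖ, ← WithZero.exp_zero]
    exact WithZero.exp_lt_exp.2 (by norm_num)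
  have hg1 : V.valuation (D.σ ϖ) < 1 := Pool.Agent.N135.ZO.val_lt_of hA1 hA2 hϖlt
  have hg0 : D.σ ϖ ≠ 0 := (map_ne_zero D.σ).2 hϖ0
  have hgv : V.valuation (D.σ ϖ) ≠ 0 := (Valuation.ne_zero_iff _).2 hg0
  -- values of elements of `K`
  have hKval : ∀ (x : D.K) (t : ℤ), D.v.valuation D.K x = WithZero.exp t →
      V.valuation (D.σ x) * V.valuation (D.σ ϖ) ^ t = 1 := by
    intro x t hx
    have h3 : D.v.valuation D.K (x * ϖ ^ t) = 1 := by
      rw [map_mul, map_zpow₀, hx, hϖ, ← WithZero.exp_zsmul, ← WithZero.exp_add]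
      simp
    have h4 := Pool.Agent.N135.ZO.val_one_of hA1 hA2 h3
    rwa [map_mul, map_mul, map_zpow₀, map_zpow₀] at h4
  have hR : V.valuation (D.p : ℂ) = V.valuation (D.σ ϖ) ^ D.e := by
    have h1 := hKval _ _ D.ram
    rw [map_natCast, zpow_neg, zpow_natCast] at h1
    exact (mul_inv_eq_one₀ (pow_ne_zero _ hgv)).1 h1
  have he0 : 0 < D.e := by
    rcases Nat.eq_zero_or_pos D.e with h | h
    · rw [h, pow_zero] at hR
      rw [hR] at hpV
      exact absurd hpV (lt_irrefl _)
    · exact h
  -- distances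
  have hdist : ∀ (c μ a' : D.K) (t : ℤ), AtDistance D.v c μ a' (WithZero.exp t) → ∀ y : ℂ,
      V.valuation y = 1 →
      V.valuation (D.σ c + D.σ μ * y - D.σ a') * V.valuation (D.σ ϖ) ^ t = 1 := by
    rintro c μ a' t ⟨h1, h2⟩ y hy
    obtain ⟨δ, -, hδ, hxδ⟩ := Pool.Agent.U854.OP.at_distance D.σ D.v hA1 hA2 h1 hy
    rw [h2] at hδ
    rw [hxδ]
    exact hKval δ t hδ
  -- the elliptic coordinates
  have hEll : ∀ (g : Fin r) (E : EndRing (A g) (B g)) (c : Fin (q g) → E.O),
      E.Relation (Γ.Q g) c (z.P g) →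
      (∀ i, ¬ V.valuation (y (Sum.inl ⟨g, i⟩)) = 1 → c i = 0) → c = 0 := by
    rintro g E c ⟨t, ht, d, hrel⟩ hc
    by_contra hne
    let J : Finset (Fin (q g) ⊕ Fin (Γ.s g)) := Finset.univ.filter
      (Sum.elim (fun i => V.valuation (y (Sum.inl ⟨g, i⟩)) = 1) (fun _ => True))
    have hAg : V.valuation (A g) ≤ 1 := by
      rw [← D.a_eq g]
      exact Pool.Agent.N135.ZO.val_le_of hA1 hA2 (D.a_int g)
    have hBg : V.valuation (B g) ≤ 1 := by
      rw [← D.b_eq g]
      exact Pool.Agent.N135.ZO.val_le_of hA1 hA2 (D.b_int g)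
    have hxx : ∀ (Q : (curve (A g) (B g)).Point) (n : ℕ),
        V.valuation (xCoord Q) * V.valuation (D.σ ϖ) ^ n = 1 →
        V.valuation (Pool.Agent.W466.EP.xx (A := A g) (B := B g) Q) *
          V.valuation (D.σ ϖ) ^ n = 1 := by
      intro Q n h
      rw [← xCoord_eq]
      exact h
    refine Pool.Agent.U854.SA.no_relation D.prime hpnon harch hAg hBg (toE E) hR he0
      (zero_lt_iff.2 hgv) (ι := Fin (q g) ⊕ Fin (Γ.s g)) (Sum.elim (z.P g) (Γ.Q g)) J (D.f g) ?_
      (fun i _ => D.level g i) (fun i _ j _ => D.level_ne g i j)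
      (Sum.elim (t • c) (-d)) ?_ ?_ one_pos ?_
    · rintro (i | l) hi
      · have hU : V.valuation (y (Sum.inl ⟨g, i⟩)) = 1 := (Finset.mem_filter.1 hi).2
        have hy0 : ζ (Sum.inl ⟨g, i⟩) ≠ 0 := by
          intro h
          have h1 : y (Sum.inl ⟨g, i⟩) = 0 := by
            show ξ _ / ζ _ = 0
            rw [h, div_zero]
          rw [h1, map_zero] at hU
          exact zero_ne_one hU
        obtain ⟨-, hP0, hx⟩ := (hell g i).resolve_left fun h => hy0 h.1
        rcases D.elliptic g i with h | ⟨hp2, x', y', hns, N, k', hN, hNT, hx', hy', hk', hf, h⟩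
        · have h1 := hdist _ _ _ _ h _ hU
          rw [map_zero, sub_zero, zpow_natCast] at h1
          refine ⟨1, (0 : (curve (A g) (B g)).Point), one_pos, one_nsmul _,
            hxx (z.P g i + 0) _ ?_⟩
          rw [add_zero, hx]
          exact h1
        · have h1 := hdist _ _ _ _ h _ hU
          have h1' : V.valuation (xCoord (z.P g i) - D.σ x') *
              V.valuation (D.σ ϖ) ^ (-(k' : ℤ)) = 1 := by
            rw [hx]
            exact h1
          rw [zpow_neg, zpow_natCast] at h1'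
          have h2 : V.valuation (xCoord (z.P g i) - D.σ x') = V.valuation (D.σ ϖ) ^ k' :=
            (mul_inv_eq_one₀ (pow_ne_zero _ hgv)).1 h1'
          have h3 : V.valuation (2 : ℂ) = 1 := by
            have := Pool.Agent.U854.OP.val_prime_to V D.prime hpV (b := 2) (fun hd =>
              hp2 ((Nat.prime_dvd_prime_iff_eq D.prime Nat.prime_two).1 hd))
            exact_mod_cast this
          rcases hP : z.P g i with _ | ⟨X0, Y0, h0⟩
          · exact absurd hP hP0
          · rw [hP] at h2
            change V.valuation (X0 - D.σ x') = _ at h2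
            have h4 : X0 ≠ D.σ x' := by
              intro h
              rw [h, sub_self, map_zero] at h2
              exact pow_ne_zero _ hgv h2.symm
            obtain ⟨Q, hQ, hv⟩ := Pool.Agent.U854.SA.near_point (A := A g) (B := B g) hAg h3
              (x := X0) (y := Y0) (x' := D.σ x') (y' := D.σ y') h0 hns
              (Pool.Agent.N135.ZO.val_le_of hA1 hA2 hx')
              (Pool.Agent.N135.ZO.val_one_of hA1 hA2 hy')
              (by rw [h2]; exact pow_lt_one₀ zero_le hg1 hk'.ne') h4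
            rw [h2, ← pow_mul, mul_comm k' 2, ← hf] at hv
            have hNQ : N • Q = 0 := by
              rcases hQ with rfl | rfl
              · exact hNT
              · exact (neg_nsmul _ _).trans (neg_eq_zero.2 hNT)
            refine ⟨N, Q, hN, hNQ, ?_⟩
            have hPQ : (Sum.elim (z.P g) (Γ.Q g) (Sum.inl i) :
                (curve (A g) (B g)).Point) = WeierstrassCurve.Affine.Point.some X0 Y0 h0 := hP
            rw [← hv]
            exact congrArg (fun R => V.valuation (Pool.Agent.W466.EP.xx (A := A g) (B := B g)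
              (R + Q)) * V.valuation (D.σ ϖ) ^ D.f g (Sum.inl i)) hPQ
      · obtain ⟨N, T, x, hN, hT, hx, hv⟩ := D.elliptic_gen g l
        refine ⟨N, T, hN, hT, hxx (Γ.Q g l + T) _ ?_⟩
        rw [hx]
        have h1 := hKval _ _ hv
        rw [zpow_natCast] at h1
        exact h1
    · intro h
      apply hne
      funext i
      have h1 := congrFun h (Sum.inl i)
      have h2 : t • c i = 0 := h1
      rw [nsmul_eq_mul] at h2
      have h3 : ((t : ℕ) : E.O) ≠ 0 := by
        intro h
        have := congrArg (Subtype.val : E.O → ℂ) h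
        simp at this
        omega
      exact (mul_eq_zero.1 h2).resolve_left h3
    · rintro (i | l) hi
      · show t • c i = 0
        rw [hc i (fun h => hi (Finset.mem_filter.2 ⟨Finset.mem_univ _, h⟩)), smul_zero]
      · exact absurd (Finset.mem_filter.2 ⟨Finset.mem_univ _, trivial⟩) hi
    · rw [one_smul, Fintype.sum_sum_type]
      have h1 : ∑ i, (toE E).act ((Sum.elim (t • c) (-d) : _ → E.O) (Sum.inl i))
          ((Sum.elim (z.P g) (Γ.Q g) : _ → (curve (A g) (B g)).Point) (Sum.inl i)) =
          E.comb (t • c) (z.P g) := rfl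
      have h2 : ∑ l, (toE E).act ((Sum.elim (t • c) (-d) : _ → E.O) (Sum.inr l))
          ((Sum.elim (z.P g) (Γ.Q g) : _ → (curve (A g) (B g)).Point) (Sum.inr l)) =
          E.comb (-d) (Γ.Q g) := rfl
      have h3 : E.comb (-d) (Γ.Q g) = - E.comb d (Γ.Q g) := by
        rw [eq_neg_iff_add_eq_zero, ← comb_add, neg_add_cancel]
        simp [EndRing.comb]
      refine Eq.trans (congrArg₂ (· + ·) h1 h2) ?_
      rw [comb_nsmul, hrel, h3]
      exact add_neg_cancel _
  -- the torus coordinates
  have hγ0 : ∀ i, Γ.γ i ≠ 0 := by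
    intro i h
    have h1 := Pool.Agent.N135.ZO.val_one_of hA1 hA2 (D.gen_unit i)
    rw [D.gen_eq i, h, map_zero] at h1
    exact zero_ne_one h1
  have hTor : ∀ a ∈ relTor Γ.γ hγ0 z.u z.ne_zero,
      (∀ j, ¬ V.valuation (y (Sum.inr j)) = 1 → a j = 0) → a = 0 := by
    rintro a ⟨t, ht, c, hrel⟩ ha
    by_contra hane
    have hta : (t : ℤ) • a ≠ 0 := smul_ne_zero (by exact_mod_cast ht.ne') hane
    obtain ⟨η, hη, hηc⟩ := hull_point Γ.γ ((t : ℤ) • a) hta c
    have hrel' : ∏ j, z.u j ^ ((t : ℤ) • a) j = ∏ j, η j ^ ((t : ℤ) • a) j := by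
      rw [hηc, ← hrel, ← Finset.prod_pow]
      refine Finset.prod_congr rfl fun j _ => ?_
      rw [Pi.smul_apply, smul_eq_mul, mul_comm, zpow_mul, zpow_natCast]
    have hδex : ∀ b : Fin k ⊕ Fin Γ.s', ∃ δ : D.K, NearTorsion D.P b → δ ≠ 0 ∧
        D.v.valuation D.K δ = D.dist b ∧
        (∀ j, b = Sum.inl j → V.valuation (y (Sum.inr j)) = 1 →
          V.valuation (z.u j - D.σ (D.ζ b)) = V.valuation (D.σ δ)) ∧
        ∀ i, b = Sum.inr i →
          V.valuation (Γ.γ i - D.σ (D.ζ b)) = V.valuation (D.σ δ) := by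
      rintro (j | i)
      · by_cases hj : j ∈ D.P
        · exact ⟨0, fun h => absurd hj h⟩
        have h2 := D.torsion j hj
        by_cases hU : V.valuation (y (Sum.inr j)) = 1
        · obtain ⟨δ, hδ0, hδ, hxδ⟩ :=
            Pool.Agent.U854.OP.at_distance D.σ D.v hA1 hA2 h2.1 hU
          rw [← (htor j).2] at hxδ
          rw [h2.2] at hδ
          refine ⟨δ, fun _ => ⟨hδ0, hδ, ?_, ?_⟩⟩
          · intro j' hj' _
            obtain rfl := Sum.inl.inj hj'
            exact hxδ
          · intro i hi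
            exact absurd hi (by simp)
        · obtain ⟨δ, hδ0, hδ, -⟩ :=
            Pool.Agent.U854.OP.at_distance D.σ D.v hA1 hA2 h2.1 (y := 1) (map_one _)
          rw [h2.2] at hδ
          refine ⟨δ, fun _ => ⟨hδ0, hδ, ?_, ?_⟩⟩
          · intro j' hj' hU'
            obtain rfl := Sum.inl.inj hj'
            exact absurd hU' hU
          · intro i hi
            exact absurd hi (by simp)
      · by_cases hi : NearTorsion D.P (Sum.inr i : Fin k ⊕ Fin Γ.s')
        · refine ⟨D.gen i - D.ζ (Sum.inr i), fun _ => ⟨?_, D.gen_dist i hi, ?_, ?_⟩⟩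
          · intro h
            have h1 := D.gen_dist i hi
            rw [h, map_zero] at h1
            exact (D.small _ hi).1 h1.symm
          · intro j hj
            exact absurd hj (by simp)
          · intro i' hi'
            obtain rfl := Sum.inr.inj hi'
            rw [map_sub D.σ, D.gen_eq]
        · exact ⟨0, fun h => absurd h hi⟩
    choose δ hδ using hδex
    have key := Pool.Agent.U854.OP.torus_val D.prime hpV D.P D.o
      (fun j => V.valuation (y (Sum.inr j)) = 1) hg0 hg1 (u := z.u)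
      (fun j hj hU => by
        have h1 := hdist _ _ _ _ (D.polar j hj) _ hU
        rw [map_zero, sub_zero] at h1
        rw [(htor j).2]
        exact h1)
      (fun b => D.σ (D.ζ b)) (fun b => D.σ (δ b)) Γ.γ
      (fun i => by
        rw [← D.gen_eq i]
        exact Pool.Agent.N135.ZO.val_one_of hA1 hA2 (D.gen_unit i))
      (by
        intro hP b hb
        have hnt : ∀ b : Fin k ⊕ Fin Γ.s', Sum.elim (fun j => j ∉ D.P) (fun _ => True) b →
            NearTorsion D.P b := by
          rintro (j | i) h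
          · exact h
          · exact hP
        have hb' := hnt b hb
        obtain ⟨h1, h2, -⟩ := hδ b hb'
        obtain ⟨N, hN, hNζ⟩ := D.root b hb'
        refine ⟨⟨N, hN, by rw [← map_pow, hNζ, map_one]⟩, (map_ne_zero D.σ).2 h1, ?_, ?_⟩
        · have h3 := Pool.Agent.N135.ZO.val_pow_lt hA1 hA2 (x := δ b ^ (D.p - 1))
            (y := (D.p : D.K)) hpK (by
              rw [map_pow, h2]
              exact (D.small b hb').2)
          rw [map_pow, map_pow, map_natCast] at h3
          exact h3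
        · intro b' hbb hne r t
          have hbb' := hnt b' hbb
          obtain ⟨h1', h2', -⟩ := hδ b' hbb'
          have h3 := Pool.Agent.N135.ZO.val_ne hA1 hA2 (x := δ b * (D.p : D.K) ^ r)
            (y := δ b' * (D.p : D.K) ^ t) (mul_ne_zero h1 (pow_ne_zero _ hpK))
            (mul_ne_zero h1' (pow_ne_zero _ hpK)) (by
              rw [map_mul, map_mul, map_pow, map_pow, h2, h2']
              exact D.incongruent b b' hb' hbb' hne r t)
          simp only [map_mul, map_pow, map_natCast] at h3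
          exact h3)
      (fun j hj hU => (hδ (Sum.inl j) hj).2.2.1 j rfl hU)
      (fun hP i => (hδ (Sum.inr i) hP).2.2.2 i rfl) hη hrel'
      (fun j hj => by
        show (t : ℤ) • a j = 0
        rw [ha j hj, smul_zero])
    exact hta (key.2 (polar_zero D.card_le D.o_ne key.1))
  -- counting
  obtain ⟨α, β, hρ, hE, a, ha, hau⟩ := hz
  let Bg : (g : Fin r) → Finset (Fin (q g)) := fun g =>
    Finset.univ.filter fun i => ¬ V.valuation (y (Sum.inl ⟨g, i⟩)) = 1
  let Bt : Finset (Fin k) := Finset.univ.filter fun j => ¬ V.valuation (y (Sum.inr j)) = 1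
  have hBB : ∑ g, (Bg g).card + Bt.card ≤ {i | V.valuation (ξ i / ζ i) ≠ 1}.ncard := by
    let S : Finset (Ind q k) := (Finset.univ.sigma Bg).disjSum Bt
    have hS : S.card = ∑ g, (Bg g).card + Bt.card := by
      rw [Finset.card_disjSum, Finset.card_sigma]
    rw [← hS, ← Set.ncard_coe_finset]
    refine Set.ncard_le_ncard ?_ (Set.toFinite _)
    intro i hi
    rcases Finset.mem_disjSum.1 (Finset.mem_coe.1 hi) with ⟨j, hj, rfl⟩ | ⟨j, hj, rfl⟩
    · exact (Finset.mem_filter.1 (Finset.mem_sigma.1 hj).2).2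
    · exact (Finset.mem_filter.1 hj).2
  have h1 : ∀ g, α g ≤ (Bg g).card := by
    intro g
    obtain ⟨E, c, hc, hcP⟩ := hE g
    by_contra hlt
    push Not at hlt
    have h2 := le_finrank E (Γ.Q g) (z.P g) c hc hcP
    obtain ⟨c', hc', hc0, hcB⟩ := exists_relation (relMod E (Γ.Q g) (z.P g)) (Bg g)
      (hlt.trans_le h2)
    exact hc0 (hEll g E c' hc' fun i hi => hcB i (Finset.mem_filter.2 ⟨Finset.mem_univ _, hi⟩))
  have h2 : β ≤ Bt.card := by
    by_contra hlt
    push Not at hlt
    have h2 := le_finrank_tor Γ.γ hγ0 z.u z.ne_zero a ha hau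
    obtain ⟨c', hc', hc0, hcB⟩ := exists_relation (relTor Γ.γ hγ0 z.u z.ne_zero) Bt
      (hlt.trans_le h2)
    exact hc0 (hTor c' hc' fun i hi => hcB i (Finset.mem_filter.2 ⟨Finset.mem_univ _, hi⟩))
  have h3 : ∑ g, α g ≤ ∑ g, (Bg g).card := Finset.sum_le_sum fun g _ => h1 g
  omega

theorem main {X : Set (Amb A B q k)} {m : ℕ} (D : Place Γ X m) : NoAtypical Γ X m := by
  classical
  refine ⟨fun ρ z hzX hz W hW => main_pt D hzX hz W hW, ?_⟩
  intro ρ s ε W h hWX hcl hprime hh
  obtain ⟨w, hwW, hhw, T, hT, hdim⟩ :=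
    Pool.Agent.W282.LF.generic_dim_open ℚ W hprime hcl h hh
  obtain ⟨z, hzX, hz, hwz⟩ := hWX w hwW hhw
  have hT' : AlgebraicIndependent ℚ (fun j : (T.map ε.toEmbedding : Finset (Ind q k)) =>
      z.coord j) := by
    let f : {j : Ind q k // j ∈ T.map ε.toEmbedding} → T := fun j => ⟨ε.symm j, by
      obtain ⟨t, ht, h⟩ := Finset.mem_map.1 j.2
      rw [← h]
      simpa using ht⟩
    have hf : Function.Injective f := by
      intro j j' hjj
      have h2 := congrArg (Subtype.val : T → Fin s) hjj
      exact Subtype.ext (ε.symm.injective h2)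
    have h2 := hT.comp f hf
    have h3 : ((fun j : T => w j) ∘ f) = fun j : (T.map ε.toEmbedding : Finset (Ind q k)) =>
        z.coord j := by
      funext j
      show w (ε.symm j) = z.coord j
      rw [hwz, ε.apply_symm_apply]
    rwa [h3] at h2
  have h4 := main_pt D hzX hz _ hT'
  rw [Finset.card_map] at h4
  calc Pool.Agent.W282.ZP.zdim W + (ρ : Cardinal) ≤ (T.card : Cardinal) + (ρ : Cardinal) := by
        gcongr
    _ = ((T.card + ρ : ℕ) : Cardinal) := by push_cast; rfl
    _ ≤ (m : Cardinal) := by exact_mod_cast h4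

theorem moebius (D : LocalData q k Γ) (a b : Ind q k → 𝓞 D.K)
    (haa : ∀ i j, i ≠ j → a i - a j ∉ D.v.asIdeal)
    (hbb : ∀ i j, i ≠ j → b i - b j ∉ D.v.asIdeal) (hab : ∀ i j, a i - b j ∉ D.v.asIdeal) :
    NoAtypical Γ (moebiusCurve D a b) 1 := by
  have hmax : D.v.asIdeal.IsMaximal := D.v.isMaximal
  have hgen := Pool.Agent.U854.SA.mob_general D.v.asIdeal a b haa hbb hab
  let Pl : Place Γ (moebiusCurve D a b) 1 :=
    { D with
      T := {q : Ind q k × Ind q k // q.1 ≠ q.2}
      F := fun q => ⟨(Pool.Agent.U854.SA.mobForm a b q.1).deg,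
        (Pool.Agent.U854.SA.mobForm a b q.1).coeff⟩
      general := hgen
      model := by
        rintro z ⟨t, ht1, ht2⟩
        refine ⟨fun i => t - D.σ (b i), fun i => t - D.σ (a i), ?_, ?_, ?_, ?_⟩
        · intro i
          by_contra hcon
          push Not at hcon
          have h1 : D.σ (a i) = D.σ (b i) :=
            (sub_eq_zero.1 hcon.2).symm.trans (sub_eq_zero.1 hcon.1)
          have h2 : a i = b i := RingOfIntegers.coe_injective (D.σ.injective h1)
          apply hab i i
          rw [h2, sub_self]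
          exact D.v.asIdeal.zero_mem
        · rintro ⟨q, hq⟩
          show (Pool.Agent.U854.SA.mobForm a b q).eval (D.σ.comp (algebraMap (𝓞 D.K) D.K))
            (fun i => t - D.σ (b i)) (fun i => t - D.σ (a i)) = 0
          rw [Pool.Agent.U854.SA.mobForm_eval _ _ _ hq]
          simp only [RingHom.comp_apply]
          ring
        · intro g i
          rcases ht1 g i with ⟨h1, h2⟩ | ⟨h1, h2, h3⟩
          · exact Or.inl ⟨sub_eq_zero.2 h1, h2⟩
          · exact Or.inr ⟨sub_ne_zero.2 h1, h2, h3⟩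
        · intro j
          exact ⟨sub_ne_zero.2 (ht2 j).1, (ht2 j).2⟩ }
  exact main Pl

/-- **Zilber-Pink and Mordell-Lang, without atypical intersections, for subvarieties of
`∏ E_g^(q_g) × G_m^k` from their behaviour at one place.** -/
theorem result :
    (∀ (r : ℕ) (A B : Fin r → ℂ) (q : Fin r → ℕ) (k : ℕ) (Γ : Gens A B) (X : Set (Amb A B q k))
      (m : ℕ), Nonempty (Place Γ X m) → NoAtypical Γ X m) ∧
    -- rational curves
    (∀ (r : ℕ) (A B : Fin r → ℂ) (q : Fin r → ℕ) (k : ℕ) (Γ : Gens A B) (D : LocalData q k Γ)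
      (a b : Ind q k → 𝓞 D.K),
      (∀ i j, i ≠ j → a i - a j ∉ D.v.asIdeal) → (∀ i j, i ≠ j → b i - b j ∉ D.v.asIdeal) →
      (∀ i j, a i - b j ∉ D.v.asIdeal) → NoAtypical Γ (moebiusCurve D a b) 1) :=
  ⟨fun _ _ _ _ _ _ _ _ h => main h.some, fun _ _ _ _ _ _ D a b haa hbb hab =>
    moebius D a b haa hbb hab⟩

end Pool.Agent.Results.MP_dd1803_nt.OnePlace
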