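import Pool.Agent.U163.ZP.Elim
import Pool.Agent.Results.MP_dd1803_nt.EllipticScaledImages

/-!
# MP_dd1803_nt: Zilber-Pink and Mordell-Lang for scaled images in split semiabelian varieties with
several parameters

Let `E_g : y² = x³ + A_g x + B_g`, `g = 1, …, s`, be elliptic curves over the complex numbers and let
`𝔖 = ∏_g E_g^(n_g) × G_m^q` (`Amb`). As in the starting file `EllipticScaledImages` let `Y ⊆ P^N` be a
projective algebraic set, with quotients `a_i / b_i` of forms for the coordinates `x (P_{g,i})` and `u_j` of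
`𝔖`, such that no point of `Y` lies on `m + 1` of their divisors (`IsMap`; for `Y` of dimension `m` this is
the case in general), all defined over a countable field `K ⊂ ℂ`. For nonzero numbers `c_i` let
`X_c ⊆ 𝔖` be the scaled image, `c_i x (P_i) = a_i (y) / b_i (y)`, `c_j u_j = a_j (y) / b_j (y)` for a
point `y` of `Y` (`scaled`).

Let `W ⊆ 𝔸^ν` be an irreducible affine variety over `ℚ` of dimension at most `r` (the parameter space),
given by its prime ideal `P`, and let `F_1, …, F_M` be polynomials over `ℤ`, `M ≥ (q - 1) 2^q + 1 + r`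
(for `q ≤ 1` this is `M ≥ r + 1`), such that any `r + 1` of the functions `F_l` on `W` are
multiplicatively independent modulo constants. Let `β` be a large prime number. The parameters `t` are the
integral points of `W` at which no prime `> b` divides two of the values `F_l (t)`, or a value with `l` in a
given set `U`, and no value is divisible by the `β`-th power of a prime `> b` (`Admissible`). We study the
scalings with

`c_i ^ β = ∏_l |F_l (t)| ^ e_{l i}` (for the coordinates `x (P_i)`), `c_j = ∏_l |F_l (t)| ^ a'_{l j}`.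

**Theorem.** For every sufficiently large prime `β` there is a function `H` on `W`, not identically zero,
such that for ALL exponents `e`, `a'` (`GoodExponents`: for `l ∉ U` the `e_{l i} ≥ β` are not divisible by
`β` and pairwise incongruent modulo `β`, and any `q` of the vectors `a'_l`, `l ∉ U`, are linearly
independent), for all admissible `t` with `H (t) ≠ 0` and all `c` as above, the set `X_c` has no
atypical intersection with the translates `Z` of algebraic subgroups of `𝔖` by points of the division hull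
of a given finitely generated subgroup of `𝔖 (K)`: every irreducible constructible subset of `X_c ∩ Z` has
dimension at most `m - codim Z`, and `X_c ∩ Z` is empty if `codim Z > m` (`NoAtypical`). In particular no
irreducible closed subset of dimension `m` of `X_c` has an atypical subvariety. So the parameters with
atypical subvarieties are on one proper closed subset of `W`, which does not depend on `e` and `a'`. If `W`
is a cone and the `F_l` are forms, then `H` can be taken to be a form.

In particular (second part) let `F_1, …, F_M` be nonconstant polynomials in `r` variables over `ℤ`,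
pairwise coprime over `ℚ`, `M ≥ (q - 1) 2^q + 1 + r`. Then all exceptional admissible `t ∈ ℤ^r` are on one
hypersurface `H = 0`.

The starting file `EllipticScaledImages` has the families `∏_l (k + l) ^ e_{l i}` of one parameter `k` with at
most `O (√H)` exceptions `k ≤ H`; the other files of this problem are about one parameter, random maps, or
`S`-unit translates. My files `MP_b7926e_nt.SeveralParameters` (translates of arbitrary subvarieties of
tori) and `MP_d83ecd_ag.SeveralParameters` (`Y(1)^n`) do not contain elliptic curves.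

Proof. By the criterion of `EllipticScaledImages`, if `X_c` has an atypical intersection then less than
`(q - 1) 2^q + 1` of the values `F_l (t)` have a prime divisor `> max (D, b)`. So `r + 1` of them are
`S`-units for a fixed finite set `S`. There is an algebraic relation between these `r + 1` functions on `W`;
a relation with the smallest number of terms has at least two terms and no vanishing subsum on `W`. Its
value at `t` is a sum of `S`-units which is zero; hence a proper subsum vanishes at `t`, or the ratio of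
two of the terms, which is not constant on `W` because of the multiplicative independence, has one of
finitely many values (unit equation, starting library).
-/

set_option autoImplicit false

namespace Pool.Agent.Results.MP_dd1803_nt.SeveralParameters

open MvPolynomial Pool.Agent.W466.EP Pool.Agent.W282.LF
open Pool.Agent.Results.MP_dd1803_nt.EllipticScaledImages
  (Amb Ind scaled NoAtypical IsMap IsScaling)

/-- Any `r + 1` of the functions `F l` are multiplicatively independent modulo constants on the variety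
of the prime ideal `P`. -/
def MultIndependent {ν M : ℕ} (P : Ideal (MvPolynomial (Fin ν) ℚ)) (r : ℕ)
    (F : Fin M → MvPolynomial (Fin ν) ℤ) : Prop :=
  ∀ s : Finset (Fin M), s.card = r + 1 → ∀ a a' : Fin M → ℕ, (∀ l, l ∉ s → a l = 0 ∧ a' l = 0) →
    a ≠ a' → ∀ α : ℚ, ∏ l, map (Int.castRingHom ℚ) (F l) ^ a l -
      C α * ∏ l, map (Int.castRingHom ℚ) (F l) ^ a' l ∉ P

/-- The admissible parameters `t`: integral points of the variety of `P` such that no prime larger than
`b` divides the values of two different `F l`, or the value of an `F l` with `l ∈ U`, and no value is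
divisible by the `β`-th power of a prime larger than `b`. -/
def Admissible {ν M : ℕ} (P : Ideal (MvPolynomial (Fin ν) ℚ)) (F : Fin M → MvPolynomial (Fin ν) ℤ)
    (U : Finset (Fin M)) (b β : ℕ) (t : Fin ν → ℤ) : Prop :=
  (∀ f ∈ P, eval (fun i => (t i : ℚ)) f = 0) ∧
  (∀ l ∈ U, ∀ p : ℕ, p.Prime → (p : ℤ) ∣ eval t (F l) → p ≤ b) ∧
  (∀ l l', l ≠ l' → ∀ p : ℕ, p.Prime → (p : ℤ) ∣ eval t (F l) → (p : ℤ) ∣ eval t (F l') → p ≤ b) ∧
  ∀ l, ∀ p : ℕ, p.Prime → b < p → ¬ (p : ℤ) ^ β ∣ eval t (F l)

/-- The exponents: for `l ∉ U` the `e l i` are at least `β`, not divisible by `β` and pairwise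
incongruent modulo `β`, and the vectors `a l` for any `q` indices outside of `U` are linearly
independent. -/
def GoodExponents {M q : ℕ} {ι : Type} (U : Finset (Fin M)) (β : ℕ) (e : Fin M → ι → ℕ)
    (a : Fin M → Fin q → ℕ) : Prop :=
  (∀ l, l ∉ U → ∀ i, β ≤ e l i ∧ ¬ β ∣ e l i) ∧
  (∀ l, l ∉ U → ∀ i j, i ≠ j → ¬ e l i ≡ e l j [MOD β]) ∧
  ∀ I : Finset (Fin M), I.card = q → (∀ l ∈ I, l ∉ U) → ∀ γ : Fin q → ℤ,
    (∀ l ∈ I, ∑ j, γ j * (a l j : ℤ) = 0) → γ = 0

/-- The integers `∏_l |F_l (t)| ^ e_{l i}`. -/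
noncomputable def scaling {ν M : ℕ} {ι : Type} (F : Fin M → MvPolynomial (Fin ν) ℤ)
    (e : Fin M → ι → ℕ) (t : Fin ν → ℤ) : ι → ℕ :=
  fun i => ∏ l, (eval t (F l)).natAbs ^ e l i

theorem spread_of {ν M q : ℕ} {ι : Type} (F : Fin M → MvPolynomial (Fin ν) ℤ) (U : Finset (Fin M))
    (D b β : ℕ) (hβ : β.Prime) (P : Ideal (MvPolynomial (Fin ν) ℚ))
    (t : Fin ν → ℤ) (ht : Admissible P F U b β t) (ht0 : ∀ l, eval t (F l) ≠ 0)
    (j : Fin ((q - 1) * 2 ^ q + 1) → Fin M) (hj : Function.Injective j)
    (hjU : ∀ a, j a ∉ U) (p : Fin ((q - 1) * 2 ^ q + 1) → ℕ) (hp : ∀ a, (p a).Prime ∧ max D b < p a ∧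
      (p a : ℤ) ∣ eval t (F (j a)) ∧ ∀ l', l' ≠ j a → ¬ (p a : ℤ) ∣ eval t (F l'))
    (e : Fin M → ι → ℕ) (a' : Fin M → Fin q → ℕ) (he : GoodExponents U β e a') :
    SpreadE q D β (scaling F e t) (scaling F a' t) := by
  classical
  have hfac : ∀ {κ : Type} (e : Fin M → κ → ℕ) (a : Fin ((q - 1) * 2 ^ q + 1)) (i : κ),
      (scaling F e t i).factorization (p a) =
        e (j a) i * (eval t (F (j a))).natAbs.factorization (p a) := by
    intro κ e a i
    refine Pool.Agent.U163.ZP.factorization_prod_exact (fun l => (eval t (F l)).natAbs)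
      (fun l => Int.natAbs_ne_zero.2 (ht0 l)) (fun l => e l i) (j a) fun l hl hd => ?_
    exact (hp a).2.2.2 l hl (Int.natCast_dvd.2 hd)
  have hpos : ∀ a, 0 < (eval t (F (j a))).natAbs.factorization (p a) := fun a =>
    (hp a).1.factorization_pos_of_dvd (Int.natAbs_ne_zero.2 (ht0 _)) (Int.natCast_dvd.1 (hp a).2.2.1)
  have hlt : ∀ a, (eval t (F (j a))).natAbs.factorization (p a) < β := by
    intro a
    by_contra h
    push Not at h
    refine ht.2.2.2 (j a) (p a) (hp a).1 ((le_max_right _ _).trans_lt (hp a).2.1) ?_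
    have h1 : p a ^ β ∣ (eval t (F (j a))).natAbs :=
      (pow_dvd_pow _ h).trans (Nat.ordProj_dvd _ _)
    have h2 : ((p a ^ β : ℕ) : ℤ) ∣ eval t (F (j a)) := Int.natCast_dvd.2 h1
    push_cast at h2
    exact h2
  have hnd : ∀ a, ¬ β ∣ (eval t (F (j a))).natAbs.factorization (p a) := fun a h =>
    absurd (Nat.le_of_dvd (hpos a) h) (not_le.2 (hlt a))
  refine ⟨fun i => ?_, p, fun a => ⟨(hp a).1, (le_max_left _ _).trans_lt (hp a).2.1⟩, fun a i => ?_,
    fun a i i' hii h => ?_, fun I hI γ hγ => ?_⟩
  · exact Finset.prod_ne_zero_iff.2 fun l _ => pow_ne_zero _ (Int.natAbs_ne_zero.2 (ht0 l))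
  · rw [hfac]
    obtain ⟨h1, h2⟩ := he.1 _ (hjU a) i
    refine ⟨h1.trans (Nat.le_mul_of_pos_right _ (hpos a)), fun h => ?_⟩
    rcases (hβ.dvd_mul).1 h with h3 | h3
    · exact h2 h3
    · exact hnd a h3
  · rw [hfac, hfac] at h
    have h1 : e (j a) i * (eval t (F (j a))).natAbs.factorization (p a) ≡
        e (j a) i' * (eval t (F (j a))).natAbs.factorization (p a) [MOD β] :=
      h.of_mul_left 2
    refine he.2.1 _ (hjU a) i i' hii ?_
    refine Nat.ModEq.cancel_right_of_coprime ?_ h1
    exact (Nat.Prime.coprime_iff_not_dvd hβ).2 (hnd a)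
  · refine he.2.2 (I.map ⟨j, hj⟩) (by rw [Finset.card_map]; exact hI) ?_ γ ?_
    · intro l hl
      obtain ⟨a, -, rfl⟩ := Finset.mem_map.1 hl
      exact hjU a
    · intro l hl
      obtain ⟨a, ha, rfl⟩ := Finset.mem_map.1 hl
      have h1 := hγ a ha
      have h2 : ((eval t (F (j a))).natAbs.factorization (p a) : ℤ) *
          ∑ i, γ i * (a' (j a) i : ℤ) = 0 := by
        rw [← h1, Finset.mul_sum]
        refine Finset.sum_congr rfl fun i _ => ?_
        rw [hfac]
        push_cast
        ring
      rcases mul_eq_zero.1 h2 with h3 | h3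
      · have := hpos a
        have h4 : (eval t (F (j a))).natAbs.factorization (p a) = 0 := by exact_mod_cast h3
        omega
      · exact h3

/-- **Zilber-Pink and Mordell-Lang for scaled images in split semiabelian varieties with several
parameters.** -/
theorem result {κ : Type*} (K : Subfield ℂ) [Countable K] (N s q m : ℕ) (A B : Fin s → ℂ)
    (hA : ∀ g, A g ∈ K) (hB : ∀ g, B g ∈ K) (n : Fin s → ℕ)
    (G : κ → MvPolynomial (Fin (N + 1)) K) (a b : Ind n q → MvPolynomial (Fin (N + 1)) K)
    (dg : Ind n q → ℕ) (hY : IsMap G a b dg m)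
    (Γe : ∀ g, Finset (crv (A g) (B g)).Point) (hΓe : ∀ g, ∀ P ∈ Γe g, Rat K P)
    (Γm : Finset ℂˣ) (hΓm : ∀ γ ∈ Γm, (γ : ℂ) ∈ K) :
    ∃ β₀ : ℕ, ∀ β : ℕ, β.Prime → β₀ < β →
      ∀ (M r : ℕ) (_ : (q - 1) * 2 ^ q + 1 + r ≤ M) (U : Finset (Fin M)) (b₀ : ℕ),
      (∀ (ν : ℕ) (P : Ideal (MvPolynomial (Fin ν) ℚ)), P.IsPrime →
        Algebra.trdeg ℚ (MvPolynomial (Fin ν) ℚ ⧸ P) ≤ r →
        ∀ F : Fin M → MvPolynomial (Fin ν) ℤ, MultIndependent P r F →
        ∃ H : MvPolynomial (Fin ν) ℚ, H ∉ P ∧
          ((∀ f ∈ P, ∀ j, homogeneousComponent j f ∈ P) → (∀ l, ∃ j, (F l).IsHomogeneous j) →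
            ∃ j, H.IsHomogeneous j) ∧
          ∀ (e : Fin M → (g : Fin s) × Fin (n g) → ℕ) (a' : Fin M → Fin q → ℕ),
            GoodExponents U β e a' → ∀ t, Admissible P F U b₀ β t →
            eval (fun i => (t i : ℚ)) H ≠ 0 → ∀ c : Ind n q → ℂ,
            IsScaling β c (scaling F e t) (scaling F a' t) →
            NoAtypical K Γe Γm m (scaled (A := A) (B := B) G a b c)) ∧
      ∀ F : Fin M → MvPolynomial (Fin r) ℤ, (∀ l, 0 < (F l).totalDegree) →
        (∀ l l', l ≠ l' →
          IsRelPrime (map (Int.castRingHom ℚ) (F l)) (map (Int.castRingHom ℚ) (F l'))) →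
        ∃ H : MvPolynomial (Fin r) ℚ, H ≠ 0 ∧
          ((∀ l, ∃ j, (F l).IsHomogeneous j) → ∃ j, H.IsHomogeneous j) ∧
          ∀ (e : Fin M → (g : Fin s) × Fin (n g) → ℕ) (a' : Fin M → Fin q → ℕ),
            GoodExponents U β e a' → ∀ t, Admissible ⊥ F U b₀ β t →
            eval (fun i => (t i : ℚ)) H ≠ 0 → ∀ c : Ind n q → ℂ,
            IsScaling β c (scaling F e t) (scaling F a' t) →
            NoAtypical K Γe Γm m (scaled (A := A) (B := B) G a b c) := by
  classical
  obtain ⟨β₀, D, C', hD⟩ := EllipticScaledImages.result K N s q m A B hA hB n G a b dg hY Γe hΓe Γm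
    hΓm
  refine ⟨β₀, fun β hβ hββ M r hM U b₀ => ?_⟩
  obtain ⟨hDβ, -⟩ := hD β hβ hββ
  have main : ∀ (ν : ℕ) (P : Ideal (MvPolynomial (Fin ν) ℚ)), P.IsPrime →
      Algebra.trdeg ℚ (MvPolynomial (Fin ν) ℚ ⧸ P) ≤ r →
      ∀ F : Fin M → MvPolynomial (Fin ν) ℤ, MultIndependent P r F →
      ∃ H : MvPolynomial (Fin ν) ℚ, H ∉ P ∧
        ((∀ f ∈ P, ∀ j, homogeneousComponent j f ∈ P) → (∀ l, ∃ j, (F l).IsHomogeneous j) →
          ∃ j, H.IsHomogeneous j) ∧
        ∀ (e : Fin M → (g : Fin s) × Fin (n g) → ℕ) (a' : Fin M → Fin q → ℕ),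
          GoodExponents U β e a' → ∀ t, Admissible P F U b₀ β t →
          eval (fun i => (t i : ℚ)) H ≠ 0 → ∀ c : Ind n q → ℂ,
          IsScaling β c (scaling F e t) (scaling F a' t) →
          NoAtypical K Γe Γm m (scaled (A := A) (B := B) G a b c) := by
    intro ν P hP hr F hF
    obtain ⟨H, hH, hhom, hcore⟩ := Pool.Agent.U163.ZP.core P ((q - 1) * 2 ^ q + 1) r
      (Nat.succ_pos _) hM hr F
      (fun s hs a a' ha ha' hne α => hF s hs a a'
        (fun l hl => ⟨Finsupp.notMem_support_iff.1 fun h => hl (ha h),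
          Finsupp.notMem_support_iff.1 fun h => hl (ha' h)⟩)
        (fun h => hne (DFunLike.coe_injective h)) α) U (max D b₀) b₀
    refine ⟨H, hH, hhom, fun e a' he t ht htH c hc => ?_⟩
    obtain ⟨ht0, j, hj, hjU, p, hp⟩ := hcore t ht.1 ht.2.1 ht.2.2.1 htH
    exact hDβ c _ _ hc (spread_of F U D b₀ β hβ P t ht ht0 j hj hjU p hp e a' he)
  refine ⟨main, fun F hF1 hF2 => ?_⟩
  obtain ⟨H, hH, hhom, h⟩ := main r ⊥ Ideal.isPrime_bot (Pool.Agent.U163.ZP.trdeg_bot r) F (by
    intro s _ a a' _ hne α
    exact Pool.Agent.U163.ZP.not_mem_bot (fun l => Pool.Agent.U163.ZP.toQ_ne_zero (hF1 l))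
      (fun l => Pool.Agent.U163.ZP.not_isUnit_toQ (hF1 l)) hF2 hne α)
  refine ⟨H, fun h0 => hH (Ideal.mem_bot.2 h0), fun h1 => hhom ?_ h1, h⟩
  intro f hf j
  rw [Ideal.mem_bot] at hf ⊢
  rw [hf, map_zero]

end Pool.Agent.Results.MP_dd1803_nt.SeveralParameters
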